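import Mathlib

set_option autoImplicit false

namespace Pool.Agent.Results.MP_1596c6_nt.TwoPairs

/-- The `(α,β)`-walk with `w 1 = a₁`, `w 2 = a₂`, `w (k+2) = α w (k+1) + β w k` for `k ≥ 1`
(the value at the unused index `0` is irrelevant). -/
def walk (α β a₁ a₂ : ℕ) : ℕ → ℕ
  | 0 => 0
  | 1 => a₁
  | 2 => a₂
  | (k + 3) => α * walk α β a₁ a₂ (k + 2) + β * walk α β a₁ a₂ (k + 1)

/-- The indices `k ≥ 1` at which some `(α,β)`-walk with positive starting values reaches `n`. -/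
def reach (p : ℕ × ℕ) (n : ℕ) : Set ℕ :=
  {k | 1 ≤ k ∧ ∃ a₁ a₂ : ℕ, 1 ≤ a₁ ∧ 1 ≤ a₂ ∧ walk p.1 p.2 a₁ a₂ k = n}

/-- `s^{α,β}(n)`: the largest index at which some `(α,β)`-walk with positive starting values
reaches `n`. -/
noncomputable def slow (p : ℕ × ℕ) (n : ℕ) : ℕ := sSup (reach p n)

/-- The larger root of `x² = α x + β`. -/
noncomputable def γ (p : ℕ × ℕ) : ℝ := ((p.1 : ℝ) + Real.sqrt ((p.1 : ℝ) ^ 2 + 4 * (p.2 : ℝ))) / 2

/-- The minimum `Γ_T` of the numbers `γ_{α,β}` over `T`. -/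
noncomputable def Γ (T : Set (ℕ × ℕ)) : ℝ := sInf (γ '' T)

/-- The sequence `g_1 = 1`, `g_2 = α`, `g_{k+2} = α g_{k+1} + β g_k`. -/
def g (p : ℕ × ℕ) (k : ℕ) : ℕ := walk p.1 p.2 1 p.1 k

/-- `S_T(n)`: the pairs of `T` whose `s^{α,β}(n)` is maximal in `T`. -/
def S (T : Set (ℕ × ℕ)) (n : ℕ) : Set (ℕ × ℕ) := {p | p ∈ T ∧ ∀ q ∈ T, slow q n ≤ slow p n}

/-- `R_T'`: the pairs of `T` with `γ_{α,β} < Γ_T²`. -/
def R' (T : Set (ℕ × ℕ)) : Set (ℕ × ℕ) := {p | p ∈ T ∧ γ p < Γ T ^ 2}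

lemma walk_succ (α β a₁ a₂ : ℕ) (k : ℕ) (hk : 1 ≤ k) :
    walk α β a₁ a₂ (k + 1) = walk α β a₂ (α * a₂ + β * a₁) k := by
  induction k using Nat.strong_induction_on with
  | _ k ih =>
    match k, hk with
    | 1, _ => rfl
    | 2, _ => rfl
    | (k + 3), _ =>
      have h1 := ih (k + 2) (by omega) (by omega)
      have h2 := ih (k + 1) (by omega) (by omega)
      show α * walk α β a₁ a₂ (k + 3) + β * walk α β a₁ a₂ (k + 2) = _
      rw [h1, h2]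
      rfl

lemma walk_shift (α β : ℕ) (hα : 1 ≤ α) (m : ℕ) (hm : 1 ≤ m) :
    ∀ (j a₁ a₂ : ℕ), 1 ≤ a₁ → 1 ≤ a₂ →
      ∃ b₁ b₂ : ℕ, 1 ≤ b₁ ∧ 1 ≤ b₂ ∧ walk α β a₁ a₂ (m + j) = walk α β b₁ b₂ m := by
  intro j
  induction j with
  | zero => intro a₁ a₂ h1 h2; exact ⟨a₁, a₂, h1, h2, rfl⟩
  | succ j ih =>
    intro a₁ a₂ h1 h2
    have h3 : 1 ≤ α * a₂ + β * a₁ := le_add_right (Nat.mul_le_mul hα h2)
    obtain ⟨b₁, b₂, hb1, hb2, hb⟩ := ih a₂ (α * a₂ + β * a₁) h2 h3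
    refine ⟨b₁, b₂, hb1, hb2, ?_⟩
    rw [← hb, ← walk_succ α β a₁ a₂ (m + j) (by omega)]
    rfl

lemma walk_lower (α β a₁ a₂ : ℕ) (hα : 1 ≤ α) (hβ : 1 ≤ β) (h1 : 1 ≤ a₁) (h2 : 1 ≤ a₂) :
    ∀ k : ℕ, k ≤ walk α β a₁ a₂ (k + 1) + 1 ∧ 1 ≤ walk α β a₁ a₂ (k + 1) := by
  intro k
  induction k using Nat.strong_induction_on with
  | _ k ih =>
    match k with
    | 0 => exact ⟨by omega, h1⟩
    | 1 => exact ⟨by omega, h2⟩
    | (k + 2) =>
      obtain ⟨i1, i2⟩ := ih (k + 1) (by omega)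
      obtain ⟨j1, j2⟩ := ih k (by omega)
      have e : walk α β a₁ a₂ (k + 2 + 1)
          = α * walk α β a₁ a₂ (k + 1 + 1) + β * walk α β a₁ a₂ (k + 1) := rfl
      rw [e]
      have m1 := Nat.mul_le_mul hα (le_refl (walk α β a₁ a₂ (k + 1 + 1)))
      have m2 := Nat.mul_le_mul hβ (le_refl (walk α β a₁ a₂ (k + 1)))
      omega

/-- For positive `α, β` the set of reaching indices is bounded, so `slow` is a genuine maximum
(the set is also nonempty for `n ≥ 1`, as it contains `1` and `2`). -/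
lemma reach_bdd (p : ℕ × ℕ) (h1 : 1 ≤ p.1) (h2 : 1 ≤ p.2) (n : ℕ) : BddAbove (reach p n) := by
  refine ⟨n + 2, ?_⟩
  rintro k ⟨hk, a₁, a₂, ha1, ha2, rfl⟩
  obtain ⟨j, rfl⟩ : ∃ j, k = j + 1 := ⟨k - 1, by omega⟩
  have := (walk_lower p.1 p.2 a₁ a₂ h1 h2 ha1 ha2 j).1
  omega


lemma walk_mono (α β : ℕ) (a₁ a₂ b₁ b₂ : ℕ) (h1 : a₁ ≤ b₁) (h2 : a₂ ≤ b₂) :
    ∀ k : ℕ, walk α β a₁ a₂ k ≤ walk α β b₁ b₂ k := by
  intro k
  induction k using Nat.strong_induction_on with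
  | _ k ih =>
    match k with
    | 0 => exact le_rfl
    | 1 => exact h1
    | 2 => exact h2
    | (k + 3) =>
      exact Nat.add_le_add (Nat.mul_le_mul_left _ (ih (k + 2) (by omega)))
        (Nat.mul_le_mul_left _ (ih (k + 1) (by omega)))

lemma walk_strict (α β : ℕ) (hα : 1 ≤ α) (hβ : 1 ≤ β) (k : ℕ) :
    walk α β 1 1 (k + 2) < walk α β 1 1 (k + 3) := by
  have h1 := (walk_lower α β 1 1 hα hβ le_rfl le_rfl (k + 1)).2
  have h2 := (walk_lower α β 1 1 hα hβ le_rfl le_rfl k).2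
  have e : walk α β 1 1 (k + 3) = α * walk α β 1 1 (k + 2) + β * walk α β 1 1 (k + 1) := rfl
  rw [e]
  have m1 := Nat.mul_le_mul hα (le_refl (walk α β 1 1 (k + 2)))
  have m2 := Nat.mul_le_mul hβ (le_refl (walk α β 1 1 (k + 1)))
  omega

/-- The latest index at which the value `w_{t+1}(1,1)` is reached is at most `t+1`, for `t ≥ 2`. -/
lemma slow_le (α β : ℕ) (hα : 1 ≤ α) (hβ : 1 ≤ β) (t : ℕ) (ht : 2 ≤ t) :
    slow (α, β) (walk α β 1 1 (t + 1)) ≤ t + 1 := by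
  unfold slow
  apply csSup_le'
  rintro k ⟨hk, a₁, a₂, ha1, ha2, h⟩
  by_contra hlt
  push Not at hlt
  have h1 : walk α β 1 1 k ≤ walk α β 1 1 (t + 1) := by
    rw [← h]; exact walk_mono α β 1 1 a₁ a₂ ha1 ha2 k
  have hmono : StrictMono (fun j : ℕ => walk α β 1 1 (j + 2)) :=
    strictMono_nat_of_lt_succ (fun j => walk_strict α β hα hβ j)
  have h2 : walk α β 1 1 (t + 1) < walk α β 1 1 k := by
    have := hmono (show t - 1 < k - 2 by omega)
    simp only at this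
    rw [show t - 1 + 2 = t + 1 by omega, show k - 2 + 2 = k by omega] at this
    exact this
  omega

/-- Closed form of a walk over `ℝ`. -/
lemma walk_closed (α β a₁ a₂ : ℕ) (c c' x y : ℝ) (hc : c ^ 2 = α * c + β)
    (hc' : c' ^ 2 = α * c' + β) (h1 : (a₁ : ℝ) = x + y) (h2 : (a₂ : ℝ) = x * c + y * c') :
    ∀ k : ℕ, (walk α β a₁ a₂ (k + 1) : ℝ) = x * c ^ k + y * c' ^ k := by
  intro k
  induction k using Nat.strong_induction_on with
  | _ k ih =>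
    match k with
    | 0 => simpa [walk] using h1
    | 1 => simpa [walk] using h2
    | (k + 2) =>
      have i1 := ih (k + 1) (by omega)
      have i2 := ih k (by omega)
      have e : walk α β a₁ a₂ (k + 2 + 1)
          = α * walk α β a₁ a₂ (k + 1 + 1) + β * walk α β a₁ a₂ (k + 1) := rfl
      rw [e]
      push_cast
      rw [i1, i2]
      have e1 : c ^ (k + 2) = c ^ k * (α * c + β) := by rw [pow_add, hc]
      have e2 : c' ^ (k + 2) = c' ^ k * (α * c' + β) := by rw [pow_add, hc']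
      rw [e1, e2]
      ring

/-- `U_m = (η^m - η'^m)/√13` with `η, η' = (5 ± √13)/2`. -/
def U : ℕ → ℤ
  | 0 => 0
  | 1 => 1
  | (m + 2) => 5 * U (m + 1) - 3 * U m

/-- `V_m = ζ η^m + ζ' η'^m` with `ζ, ζ' = 1/2 ∓ 3/(2√13)`. -/
def V : ℕ → ℤ
  | 0 => 1
  | 1 => 1
  | (m + 2) => 5 * V (m + 1) - 3 * V m

lemma U_pos (m : ℕ) : 0 ≤ U m ∧ U m + 1 ≤ U (m + 1) := by
  induction m with
  | zero => simp [U]
  | succ m ih =>
    obtain ⟨h1, h2⟩ := ih
    refine ⟨by omega, ?_⟩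
    show U (m + 1) + 1 ≤ 5 * U (m + 1) - 3 * U m
    omega

lemma V_pos (m : ℕ) : 1 ≤ V m ∧ V m ≤ V (m + 1) := by
  induction m with
  | zero => simp [V]
  | succ m ih =>
    obtain ⟨h1, h2⟩ := ih
    refine ⟨by omega, ?_⟩
    show V (m + 1) ≤ 5 * V (m + 1) - 3 * V m
    omega

/-- Closed forms of `U` and `V`, with `r = √13`. -/
lemma UV_closed (r : ℝ) (hr : r ^ 2 = 13) (hr0 : r ≠ 0) (m : ℕ) :
    ((U m : ℝ) = (1 / r) * ((5 + r) / 2) ^ m + (-1 / r) * ((5 - r) / 2) ^ m) ∧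
    ((V m : ℝ) = (1 / 2 - 3 / (2 * r)) * ((5 + r) / 2) ^ m
      + (1 / 2 + 3 / (2 * r)) * ((5 - r) / 2) ^ m) := by
  have h1 : ((5 + r) / 2) ^ 2 = 5 * ((5 + r) / 2) - 3 := by linear_combination (1 / 4) * hr
  have h2 : ((5 - r) / 2) ^ 2 = 5 * ((5 - r) / 2) - 3 := by linear_combination (1 / 4) * hr
  induction m using Nat.strong_induction_on with
  | _ m ih =>
    match m with
    | 0 => 
      constructor
      · simp [U]; ring
      · simp [V]; ring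
    | 1 =>
      constructor
      · simp only [U, pow_one]; push_cast; field_simp; ring
      · simp only [V, pow_one]; push_cast; field_simp; ring
    | (m + 2) =>
      obtain ⟨a1, a2⟩ := ih (m + 1) (by omega)
      obtain ⟨b1, b2⟩ := ih m (by omega)
      have e1 : ((5 + r) / 2) ^ (m + 2) = ((5 + r) / 2) ^ m * (5 * ((5 + r) / 2) - 3) := by
        rw [pow_add, h1]
      have e2 : ((5 - r) / 2) ^ (m + 2) = ((5 - r) / 2) ^ m * (5 * ((5 - r) / 2) - 3) := by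
        rw [pow_add, h2]
      constructor
      · show ((5 * U (m + 1) - 3 * U m : ℤ) : ℝ) = _
        push_cast
        rw [a1, b1, e1, e2]; ring
      · show ((5 * V (m + 1) - 3 * V m : ℤ) : ℝ) = _
        push_cast
        rw [a2, b2, e1, e2]; ring

/-- For `m ≥ 1` the value `w_{m+3}(1,1)` of the `(23,27)`-walk is reached by a `(4,9)`-walk with
positive starting values at index `m + 4`. -/
lemma competitor (m : ℕ) (hm : 1 ≤ m) : ∃ a₁ a₂ : ℕ, 1 ≤ a₁ ∧ 1 ≤ a₂ ∧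
    walk 4 9 a₁ a₂ (m + 4) = walk 23 27 1 1 (m + 3) := by
  have hU : 1 ≤ U m := by
    obtain ⟨j, rfl⟩ : ∃ j, m = j + 1 := ⟨m - 1, by omega⟩
    have := U_pos j
    omega
  have hV := (V_pos (m + 2)).1
  refine ⟨(U m).toNat, (V (m + 2)).toNat, by omega, by omega, ?_⟩
  set r : ℝ := Real.sqrt 13 with hrdef
  have hr : r ^ 2 = 13 := Real.sq_sqrt (by norm_num)
  have hrpos : 0 < r := Real.sqrt_pos.2 (by norm_num)
  have hr0 : r ≠ 0 := hrpos.ne'
  set e : ℝ := (5 + r) / 2 with he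
  set e' : ℝ := (5 - r) / 2 with he'
  have c1 : (((U m).toNat : ℕ) : ℝ) = (U m : ℝ) := by
    have : (((U m).toNat : ℕ) : ℤ) = U m := Int.toNat_of_nonneg (by omega)
    exact_mod_cast this
  have c2 : (((V (m + 2)).toNat : ℕ) : ℝ) = (V (m + 2) : ℝ) := by
    have : (((V (m + 2)).toNat : ℕ) : ℤ) = V (m + 2) := Int.toNat_of_nonneg (by omega)
    exact_mod_cast this
  have hu := (UV_closed r hr hr0 m).1
  have hv := (UV_closed r hr hr0 (m + 2)).2
  rw [← he, ← he'] at hu hv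
  -- key quadratic identities
  have k1 : (1 / 2 - 3 / (2 * r)) * e ^ 2 = (1 / r) * (2 + r) := by
    rw [he]; field_simp; ring_nf
    rw [show r ^ 3 = r * r ^ 2 by ring, hr]; ring
  have k2 : (1 / 2 + 3 / (2 * r)) * e' ^ 2 = (-1 / r) * (2 - r) := by
    rw [he']; field_simp; ring_nf
    rw [show r ^ 3 = r * r ^ 2 by ring, hr]; ring
  have hwalk := walk_closed 4 9 (U m).toNat (V (m + 2)).toNat (2 + r) (2 - r)
    ((1 / r) * e ^ m) ((-1 / r) * e' ^ m) (by push_cast; linear_combination hr)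
    (by push_cast; linear_combination hr) (by rw [c1, hu])
    (by
      rw [c2, hv, pow_add, pow_add]
      linear_combination (e ^ m) * k1 + (e' ^ m) * k2) (m + 3)
  have hwalk2 := walk_closed 23 27 1 1 ((23 + 7 * r) / 2) ((23 - 7 * r) / 2)
    (1 / 2 - 3 / (2 * r)) (1 / 2 + 3 / (2 * r))
    (by push_cast; linear_combination (49 / 4) * hr)
    (by push_cast; linear_combination (49 / 4) * hr) (by push_cast; ring)
    (by push_cast; field_simp; ring) (m + 2)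
  have p1 : (23 + 7 * r) / 2 = e * (2 + r) := by rw [he]; linear_combination (-1 / 2) * hr
  have p2 : (23 - 7 * r) / 2 = e' * (2 - r) := by rw [he']; linear_combination (-1 / 2) * hr
  rw [p1, p2] at hwalk2
  have hfin : (walk 4 9 (U m).toNat (V (m + 2)).toNat (m + 3 + 1) : ℝ)
      = (walk 23 27 1 1 (m + 2 + 1) : ℝ) := by
    rw [hwalk, hwalk2, mul_pow, mul_pow]
    have q1 : (1 / 2 - 3 / (2 * r)) * (e ^ (m + 2) * (2 + r) ^ (m + 2))
        = e ^ m * (2 + r) ^ (m + 2) * ((1 / 2 - 3 / (2 * r)) * e ^ 2) := by ring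
    have q2 : (1 / 2 + 3 / (2 * r)) * (e' ^ (m + 2) * (2 - r) ^ (m + 2))
        = e' ^ m * (2 - r) ^ (m + 2) * ((1 / 2 + 3 / (2 * r)) * e' ^ 2) := by ring
    rw [q1, q2, k1, k2]
    ring
  exact_mod_cast hfin

lemma n_eq (p : ℕ × ℕ) (t : ℕ) (ht : 2 ≤ t) :
    g p t + p.2 * g p (t - 1) = walk p.1 p.2 1 1 (t + 1) := by
  obtain ⟨j, rfl⟩ : ∃ j, t = j + 2 := ⟨t - 2, by omega⟩
  show walk p.1 p.2 1 p.1 (j + 2) + p.2 * walk p.1 p.2 1 p.1 (j + 1) = walk p.1 p.2 1 1 (j + 3)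
  induction j using Nat.strong_induction_on with
  | _ j ih =>
    match j with
    | 0 => simp [walk]
    | 1 => simp [walk]; ring
    | (j + 2) =>
      have i1 := ih (j + 1) (by omega) (by omega)
      have i2 := ih j (by omega) (by omega)
      have e1 : walk p.1 p.2 1 p.1 (j + 2 + 2)
        = p.1 * walk p.1 p.2 1 p.1 (j + 1 + 2) + p.2 * walk p.1 p.2 1 p.1 (j + 2) := rfl
      have e2 : walk p.1 p.2 1 p.1 (j + 2 + 1)
        = p.1 * walk p.1 p.2 1 p.1 (j + 1 + 1) + p.2 * walk p.1 p.2 1 p.1 (j + 1) := rfl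
      have e3 : walk p.1 p.2 1 1 (j + 2 + 3)
        = p.1 * walk p.1 p.2 1 1 (j + 1 + 3) + p.2 * walk p.1 p.2 1 1 (j + 3) := rfl
      rw [e3, ← i1, ← i2, e1, e2]
      ring

lemma γ49 : γ (4, 9) = 2 + Real.sqrt 13 := by
  unfold γ
  have : Real.sqrt (((4 : ℕ) : ℝ) ^ 2 + 4 * ((9 : ℕ) : ℝ)) = 2 * Real.sqrt 13 := by
    rw [show ((4 : ℕ) : ℝ) ^ 2 + 4 * ((9 : ℕ) : ℝ) = 2 ^ 2 * 13 by norm_num,
      Real.sqrt_mul (by norm_num), Real.sqrt_sq (by norm_num)]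
  simp only
  rw [this]; push_cast; ring

lemma γ2327 : γ (23, 27) = (23 + 7 * Real.sqrt 13) / 2 := by
  unfold γ
  have : Real.sqrt (((23 : ℕ) : ℝ) ^ 2 + 4 * ((27 : ℕ) : ℝ)) = 7 * Real.sqrt 13 := by
    rw [show ((23 : ℕ) : ℝ) ^ 2 + 4 * ((27 : ℕ) : ℝ) = 7 ^ 2 * 13 by norm_num,
      Real.sqrt_mul (by norm_num), Real.sqrt_sq (by norm_num)]
  simp only
  rw [this]; push_cast; ring

/-- **The claim of Q1 is false.** There are a nonempty set `T` of pairs of relatively prime positive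
integers and a pair `p ∈ R_T'` such that only finitely many `t ≥ 2` satisfy
`p ∈ S_T(g_t + β g_{t-1})`. (The proof takes `T = {(4,9), (23,27)}`, `p = (23,27)`.) -/
theorem result : ∃ T : Set (ℕ × ℕ), T.Nonempty ∧
    (∀ p ∈ T, 1 ≤ p.1 ∧ 1 ≤ p.2 ∧ Nat.Coprime p.1 p.2) ∧
    ∃ p ∈ R' T, {t : ℕ | 2 ≤ t ∧ p ∈ S T (g p t + p.2 * g p (t - 1))}.Finite := by
  refine ⟨{(4, 9), (23, 27)}, ⟨(4, 9), by simp⟩, ?_, (23, 27), ⟨by simp, ?_⟩, ?_⟩
  · rintro p hp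
    simp only [Set.mem_insert_iff, Set.mem_singleton_iff] at hp
    rcases hp with rfl | rfl <;> norm_num
  · have hs : Real.sqrt 13 ^ 2 = 13 := Real.sq_sqrt (by norm_num)
    have hs0 : 0 < Real.sqrt 13 := Real.sqrt_pos.2 (by norm_num)
    have hs3 : 3 < Real.sqrt 13 := by
      rw [show (3 : ℝ) = Real.sqrt (3 ^ 2) by rw [Real.sqrt_sq (by norm_num)]]
      exact Real.sqrt_lt_sqrt (by norm_num) (by norm_num)
    have hΓ : Γ {((4 : ℕ), (9 : ℕ)), (23, 27)} = 2 + Real.sqrt 13 := by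
      unfold Γ
      rw [Set.image_pair, γ49, γ2327, csInf_pair]
      exact min_eq_left (by linarith)
    rw [hΓ, γ2327]
    nlinarith
  · refine (Set.finite_Iio 3).subset ?_
    rintro t ⟨ht, -, hmax⟩
    by_contra hlt
    simp only [Set.mem_Iio, not_lt] at hlt
    have h1 := hmax (4, 9) (by simp)
    rw [n_eq (23, 27) t ht] at h1
    have h2 := slow_le 23 27 (by norm_num) (by norm_num) t ht
    obtain ⟨m, rfl⟩ : ∃ m, t = m + 2 := ⟨t - 2, by omega⟩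
    obtain ⟨a₁, a₂, ha1, ha2, ha⟩ := competitor m (by omega)
    have h3 : m + 4 ≤ slow (4, 9) (walk 23 27 1 1 (m + 2 + 1)) :=
      le_csSup (reach_bdd (4, 9) (by norm_num) (by norm_num) _)
        ⟨by omega, a₁, a₂, ha1, ha2, ha⟩
    have h4 := h3.trans (h1.trans h2)
    omega

end Pool.Agent.Results.MP_1596c6_nt.TwoPairs
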